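import Pool.Agent.Lib_MP_001f0c_ag.FIN
import Pool.Agent.Lib_MP_001f0c_ag.XDC
import Pool.Agent.Lib_MP_001f0c_ag.XBW
import Pool.Agent.Lib_MP_001f0c_ag.XBS

/-!
# The part of bounded branch-width of the affine infinite Grassmannian is topologically `S_∞`-noetherian

All definitions of the statement are in `Pool/Agent/Lib_MP_001f0c_ag/Defs.lean`.
-/

namespace Pool.Agent.Results.MP_001f0c_ag.BoundedBranchWidth

open Pool.Agent.BWN

/-- For every field `k` and every `w` the part `X_{≤ w}` of branch-width at most `w` of the affine infinite Grassmannian is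
closed and `S_∞`-stable, and it is topologically `S_∞`-noetherian: every descending chain of `S_∞`-stable closed subsets of it
stabilises. -/
theorem result.{u} (k : Type u) [Field k] (w : ℕ) :
    IsClosed (AGw k w) ∧ Stable (AGw k w) ∧
      ∀ Z : ℕ → Set (PrimeSpectrum (Rg k)), (∀ i, IsClosed (Z i) ∧ Stable (Z i) ∧ Z i ⊆ AGw k w) →
        (∀ i, Z (i + 1) ⊆ Z i) → ∃ n, ∀ i, n ≤ i → Z i = Z n := by
  obtain ⟨C, hC, hCw⟩ := agw_rel k w
  have h1 : IsClosed (AGw k w) := by
    rw [hCw]
    exact hC.inter (ag_closed k)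
  refine ⟨h1, agw_stable k w, fun Z hZ hd => ?_⟩
  exact main k w Z (fun i => ⟨Z i, (hZ i).1, (Set.inter_eq_left.2 (hZ i).2.2).symm⟩) (fun i => (hZ i).2.1) hd

end Pool.Agent.Results.MP_001f0c_ag.BoundedBranchWidth
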